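import Pool.Agent.Work.MP_88b7aa_gt.D.C3_4_4.F0

/-! The class is done. -/

set_option autoImplicit false

namespace Pool.Agent.Work.MP_88b7aa_gt.D.C3_4_4

open Pool.Agent.Work.MP_88b7aa_gt.PQ
open Pool.Agent.Work.MP_88b7aa_gt.Kc

theorem g0 : Good (KS (.ex 3) (.ex 4) (.iv 4 0)) H.k ⟨⟨140737488355328, 0, 0, 0, 0, 16⟩, ⟨199032864766430, 0, 0, 0, 0, 16⟩, ⟨219643377614848, 0, 20610533031936, 0, 0, 0⟩, ⟨72879253225472, 5706249928704, 4238159642624, 0, 0, 0⟩⟩ :=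
  mB_good H_ok M0.k LB.nil

theorem g1 : Good (KS (.ex 3) (.ex 4) (.iv 4 0)) H.k ⟨⟨140737488355328, 0, 0, 0, 0, 16⟩, ⟨199032864766430, 0, 0, 0, 0, 16⟩, ⟨260864443678720, 0, 20610533031936, 0, 0, 0⟩, ⟨81355572510720, 5706249928704, 4238159642624, 0, 0, 0⟩⟩ :=
  mB_good H_ok M1.k LB.nil

theorem g2 : Good (KS (.ex 3) (.ex 4) (.iv 4 0)) H.k ⟨⟨140737488355328, 0, 0, 0, 0, 16⟩, ⟨199032864766430, 0, 0, 0, 0, 16⟩, ⟨240253910646784, 0, 41221066063872, 0, 0, 0⟩, ⟨71411162939392, 11412499857408, 8476319285248, 0, 0, 0⟩⟩ :=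
  mB_good H_ok M2.k (LB.cons g0 (LB.cons g1 LB.nil))

theorem g3 : Good (KS (.ex 3) (.ex 4) (.iv 4 0)) H.k ⟨⟨140737488355328, 0, 0, 0, 0, 16⟩, ⟨199032864766430, 0, 0, 0, 0, 16⟩, ⟨240253910646784, 0, 41221066063872, 0, 0, 0⟩, ⟨14348663652352, 22824999714816, 8476319285248, 0, 0, 0⟩⟩ :=
  mB_good H_ok M3.k LB.nil

theorem g4 : CGood (KS (.ex 3) (.ex 4) (.iv 4 0)) H.k ⟨140737488355328, 0, 0, 0, 0, 16⟩ ⟨199032864766430, 0, 0, 0, 0, 16⟩ ⟨240253910646784, 0, 41221066063872, 0, 0, 0⟩ ⟨0, 0, 0, 0, 0, 0⟩ :=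
  mC_good H_ok M4.k (LB.cons g3 (LB.cons g2 LB.nil)) LC.nil

theorem done : Done (KS (.ex 3) (.ex 4) (.iv 4 0)) := fin (by decide +kernel) g4

end Pool.Agent.Work.MP_88b7aa_gt.D.C3_4_4
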